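import Pool.Agent.Helper32.OIP.Goals

/-! # OIP-P1: the estimate at one noise level -/

set_option autoImplicit false

namespace Pool.Agent.Helper49.OIP

open MeasureTheory Pool.Agent.Helper32.OIP Pool.Agent.Helper58.Orb

open Classical in
theorem meas_card {A E : Type} [MeasurableSpace E] (K : ℕ) (g : ℕ → (A → E) → (A → E))
    (hg : ∀ a, Measurable (g a)) (G : Set (A → E)) (hG : MeasurableSet G) :
    MeasurableSet {z | K ≤ 2 * ((Finset.range K).filter (fun a => g a z ∈ G)).card} := by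
  have h1 : ∀ z, ((Finset.range K).filter (fun a => g a z ∈ G)).card =
      ∑ a ∈ Finset.range K, if g a z ∈ G then 1 else 0 := fun z => by
    rw [Finset.card_filter]
  have h2 : Measurable (fun z => 2 * ∑ a ∈ Finset.range K, if g a z ∈ G then 1 else 0) := by
    apply Measurable.const_mul
    apply Finset.measurable_sum
    intro a _
    exact Measurable.ite (hg a hG) measurable_const measurable_const
  have h3 := measurableSet_le (measurable_const (a := K)) h2
  convert h3 using 1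
  ext z
  simp only [Set.mem_setOf_eq, h1]

theorem p1 : GoalP1 := by
  classical
  intro hMA1 hBr hRun hP0 hDev A E _ _ _ S D _ _ T Y j r K η Gh hD hK hη hGh hdep hsym hG hC hk
  haveI := Y.prob j
  haveI hprob : IsProbabilityMeasure (pm A (Y.ν j)) := by
    unfold pm
    infer_instance
  obtain ⟨s, t, hst, hrun⟩ := hP0 hBr hRun A E S D T (Y.ν j) Y.π Y.J (K * (2 * r + 1)) hD Y.measπ
    (Y.edge j) (Y.Jeq j) (Y.pos j) hC (by push_cast; exact hk)
  have hGh256 : (pm A (Y.ν j)).real Gh ≤ 1 / 256 := by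
    have h1 : Gh ⊆ Y.G ∪ symmDiff Y.G Gh := by
      intro z hz
      by_cases h : z ∈ Y.G
      · exact Or.inl h
      · exact Or.inr (Or.inr ⟨hz, h⟩)
    calc (pm A (Y.ν j)).real Gh ≤ (pm A (Y.ν j)).real (Y.G ∪ symmDiff Y.G Gh) :=
          measureReal_mono h1
      _ ≤ (pm A (Y.ν j)).real Y.G + (pm A (Y.ν j)).real (symmDiff Y.G Gh) :=
          measureReal_union_le _ _
      _ ≤ 1 / 256 := by linarith
  have hd1 := hDev A E S D T (Y.ν j) s t r K Y.G Gh η hst hK Y.measG hGh hdep hGh256 hsym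
  have hd2 := hDev A E S D T (Y.ν j) t s r K Y.G Gh η hst.symm hK Y.measG hGh hdep hGh256 hsym
  set Ω1 : Set (A → E) := {z | K ≤ 2 * ((Finset.range K).filter
        (fun a => sh (gw T s t (a * (2 * r + 1))) z ∈ Y.G)).card} with hΩ1
  set Ω2 : Set (A → E) := {z | K ≤ 2 * ((Finset.range K).filter
        (fun a => sh (gw T t s (a * (2 * r + 1))) z ∈ Y.G)).card} with hΩ2
  have hshm : ∀ g : A, Measurable (sh g : (A → E) → (A → E)) := fun g =>
    (hMA1.2.2 A E (Y.ν j) g).measurable
  have hmΩ2 : MeasurableSet Ω2 :=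
    meas_card K (fun a => sh (gw T t s (a * (2 * r + 1)))) (fun a => hshm _) Y.G Y.measG
  have hae : ∀ᵐ z ∂(pm A (Y.ν j)), ∀ g : A, Y.π (sh g z) ≠ 1 →
      sh g z ∈ Y.G ∨ Y.J (sh g z) ∈ Y.G := by
    rw [ae_all_iff]
    intro g
    exact (hMA1.2.2 A E (Y.ν j) g).quasiMeasurePreserving.ae (Y.cover j)
  have hle : (pm A (Y.ν j)).real {z | ∀ i ≤ K * (2 * r + 1), Y.π (sh (gw T s t i) z) ≠ 1 ∧
          Y.J (sh (gw T s t i) z) = sh (gw T t s i) (Y.J z)} ≤
      (pm A (Y.ν j)).real (Ω1 ∪ Y.J ⁻¹' Ω2) := by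
    unfold Measure.real
    apply ENNReal.toReal_mono (measure_ne_top _ _)
    apply measure_mono_ae
    filter_upwards [hae] with z hz hzr
    change z ∈ Ω1 ∪ Y.J ⁻¹' Ω2
    have hcov : Finset.range K ⊆ (Finset.range K).filter
        (fun a => sh (gw T s t (a * (2 * r + 1))) z ∈ Y.G) ∪ (Finset.range K).filter
        (fun a => sh (gw T t s (a * (2 * r + 1))) (Y.J z) ∈ Y.G) := by
      intro a ha
      have haK : a < K := Finset.mem_range.1 ha
      obtain ⟨h1, h2⟩ := hzr (a * (2 * r + 1)) (Nat.mul_le_mul_right _ haK.le)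
      rcases hz (gw T s t (a * (2 * r + 1))) h1 with h3 | h3
      · exact Finset.mem_union_left _ (Finset.mem_filter.2 ⟨ha, h3⟩)
      · rw [h2] at h3
        exact Finset.mem_union_right _ (Finset.mem_filter.2 ⟨ha, h3⟩)
    have hc := (Finset.card_le_card hcov).trans (Finset.card_union_le _ _)
    rw [Finset.card_range] at hc
    by_cases h : K ≤ 2 * ((Finset.range K).filter
        (fun a => sh (gw T s t (a * (2 * r + 1))) z ∈ Y.G)).card
    · exact Or.inl h
    · refine Or.inr ?_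
      change K ≤ 2 * ((Finset.range K).filter
        (fun a => sh (gw T t s (a * (2 * r + 1))) (Y.J z) ∈ Y.G)).card
      omega
  have hJ : (pm A (Y.ν j)).real (Y.J ⁻¹' Ω2) = (pm A (Y.ν j)).real Ω2 := by
    unfold Measure.real
    rw [(Y.Jmp j).measure_preimage hmΩ2.nullMeasurableSet]
  have hfin := measureReal_union_le (μ := pm A (Y.ν j)) Ω1 (Y.J ⁻¹' Ω2)
  rw [hJ] at hfin
  linarith

end Pool.Agent.Helper49.OIP
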